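import Mathlib

/-!
# MP_ae8880_nt: the integer 33 is not a sum of four positive integers with product `p ^ 3 - p`
-/

set_option autoImplicit false

namespace Pool.Agent.Results.MP_ae8880_nt.ThirtyThree

/-- `n` is representable: there are positive integers `a, b, c, d` and a prime `p` with
`a + b + c + d = n` and `a * b * c * d = p ^ 3 - p`. -/
def Representable (n : ℕ) : Prop :=
  ∃ a b c d p : ℕ, 0 < a ∧ 0 < b ∧ 0 < c ∧ 0 < d ∧ p.Prime ∧ n = a + b + c + d ∧
    (a : ℤ) * b * c * d = (p : ℤ) ^ 3 - p

theorem chk : ([6, 24, 120, 336, 1320, 2184] : List ℕ).all (fun m =>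
    (List.range 31).all (fun a => (List.range 31).all (fun b => (List.range 31).all (fun c =>
      !(decide (a + b + c ≤ 33) && a * b * c * (33 - (a + b + c)) == m))))) = true := by
  decide +kernel

theorem bound {a b c d : ℕ} (h : a + b + c + d = 33) : a * b * c * d ≤ 4624 := by
  have h1 : 4 * (a * b) ≤ (a + b) ^ 2 := by
    have := four_mul_le_sq_add a b
    nlinarith
  have h2 : 4 * (c * d) ≤ (c + d) ^ 2 := by
    have := four_mul_le_sq_add c d
    nlinarith
  have h3 : (a + b) * (c + d) ≤ 272 := by
    have e : c + d = 33 - (a + b) := by omega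
    have l : a + b ≤ 33 := by omega
    rw [e]
    generalize a + b = s at l
    interval_cases s <;> omega
  have h4 : (4 * (a * b)) * (4 * (c * d)) ≤ (a + b) ^ 2 * (c + d) ^ 2 := Nat.mul_le_mul h1 h2
  have h5 : (a + b) ^ 2 * (c + d) ^ 2 ≤ 272 ^ 2 := by
    rw [← mul_pow]
    exact Nat.pow_le_pow_left h3 2
  have h6 : 16 * (a * b * c * d) = (4 * (a * b)) * (4 * (c * d)) := by ring
  omega

/-- The integer `33` is not representable; in particular it is false that every integer `n > 8`
is representable. -/
theorem result : ¬ Representable 33 ∧ ¬ ∀ n : ℕ, 8 < n → Representable n := by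
  have key : ¬ Representable 33 := by
    rintro ⟨a, b, c, d, p, ha, hb, hc, hd, hp, hs, he⟩
    have hb' := bound hs.symm
    have he' : a * b * c * d + p = p ^ 3 := by
      have : ((a * b * c * d + p : ℕ) : ℤ) = ((p ^ 3 : ℕ) : ℤ) := by
        push_cast
        linarith
      exact_mod_cast this
    have hp16 : p ≤ 16 := by
      by_contra hlt
      push Not at hlt
      have h17 : 17 * 17 * p ≤ p ^ 3 := by
        have : 17 * 17 ≤ p * p := Nat.mul_le_mul hlt hlt
        calc 17 * 17 * p ≤ p * p * p := Nat.mul_le_mul_right p this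
          _ = p ^ 3 := by ring
      omega
    have hm : a * b * c * d ∈ ([6, 24, 120, 336, 1320, 2184] : List ℕ) := by
      have hp2 := hp.two_le
      have hlist : p ∈ ([2, 3, 5, 7, 11, 13] : List ℕ) := by
        interval_cases p <;> first | decide | (exfalso; revert hp; norm_num)
      simp only [List.mem_cons, List.not_mem_nil, or_false] at hlist ⊢
      rcases hlist with h | h | h | h | h | h <;> subst h <;> omega
    have hall := List.all_eq_true.1 chk _ hm
    have ha' := List.all_eq_true.1 hall a (List.mem_range.2 (by omega))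
    have hb'' := List.all_eq_true.1 ha' b (List.mem_range.2 (by omega))
    have hc' := List.all_eq_true.1 hb'' c (List.mem_range.2 (by omega))
    have hd' : d = 33 - (a + b + c) := by omega
    have hle : a + b + c ≤ 33 := by omega
    rw [← hd'] at hc'
    simp [hle] at hc'
  exact ⟨key, fun h => key (h 33 (by norm_num))⟩

end Pool.Agent.Results.MP_ae8880_nt.ThirtyThree
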